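import Mathlib

namespace Pool.Agent.EFD

theorem mf_anti (n : ℕ) (A : ℕ → ℝ) (hA1 : ∀ t, t < n → A (t + 1) ≤ A t) (s t : ℕ)
    (hst : s ≤ t) (htn : t ≤ n) : A t ≤ A s := by
  induction t with
  | zero =>
    have : s = 0 := by omega
    rw [this]
  | succ t ih =>
    rcases Nat.eq_or_lt_of_le hst with h | h
    · rw [h]
    · exact (hA1 t (by omega)).trans (ih (by omega) (by omega))

/-- the segments: `A t`, `C t` = value of the last `n - t` goods for the agents `a`, `c` -/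
theorem seg_pr (n : ℕ) (A C : ℕ → ℝ) (mu : ℝ) (hmu0 : 0 < mu) (hmu : mu ≤ 1 / 15000)
    (hA0 : A 0 = 1) (hAn : A n = 0) (hA1 : ∀ t, t < n → A (t + 1) ≤ A t)
    (hA2 : ∀ t, t < n → A t ≤ A (t + 1) + mu) (hCn : C n = 0)
    (hC1 : ∀ t, t < n → C (t + 1) ≤ C t) :
    ∃ s t : ℕ, s ≤ t ∧ t ≤ n ∧
      ((s = 0 ∧ 1 / 2 ≤ C t ∧ A t ≤ 1 / 6 + 10 * mu) ∨
       (9 * mu ≤ A s - A t ∧ A s - A t ≤ 10 * mu ∧ C s - C t < 30 * mu ∧ 3 * A t ≤ C t ∧
        C t < 1 / 2)) := by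
  classical
  have main : ∀ t : ℕ, t ≤ n → 3 * A t ≤ C t → C t < 1 / 2 → ∃ s t : ℕ, s ≤ t ∧ t ≤ n ∧
      ((s = 0 ∧ 1 / 2 ≤ C t ∧ A t ≤ 1 / 6 + 10 * mu) ∨
       (9 * mu ≤ A s - A t ∧ A s - A t ≤ 10 * mu ∧ C s - C t < 30 * mu ∧ 3 * A t ≤ C t ∧
        C t < 1 / 2)) := by
    intro t
    induction t using Nat.strong_induction_on with
    | _ t ih =>
      intro htn h3 hC
      have h0 : 9 * mu ≤ A 0 - A t := by linarith
      set s := Nat.findGreatest (fun s => 9 * mu ≤ A s - A t) t with hs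
      have hs1 : 9 * mu ≤ A s - A t :=
        Nat.findGreatest_spec (P := fun s => 9 * mu ≤ A s - A t) (Nat.zero_le t) h0
      have hs2 : s ≤ t := Nat.findGreatest_le t
      have hs3 : s < t := by
        rcases Nat.eq_or_lt_of_le hs2 with h | h
        · rw [h] at hs1
          linarith
        · exact h
      have hs4 : ¬ 9 * mu ≤ A (s + 1) - A t :=
        Nat.findGreatest_is_greatest (P := fun s => 9 * mu ≤ A s - A t) (Nat.lt_succ_self _) hs3
      have hs5 : A s - A t ≤ 10 * mu := by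
        have := hA2 s (by omega)
        linarith [not_le.1 hs4]
      rcases lt_or_ge (C s - C t) (30 * mu) with h | h
      · exact ⟨s, t, hs2, htn, Or.inr ⟨hs1, hs5, h, h3, hC⟩⟩
      · rcases lt_or_ge (C s) (1 / 2) with h' | h'
        · exact ih s hs3 (by omega) (by linarith) h'
        · exact ⟨0, s, Nat.zero_le _, by omega, Or.inl ⟨rfl, h', by linarith⟩⟩
  exact main n le_rfl (by rw [hAn, hCn]; norm_num) (by rw [hCn]; norm_num)

end Pool.Agent.EFD
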