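import Pool.Agent.Lib_helper2.EFD.Defs

namespace Pool.Agent.EFD
open Pool.Agent.PTm Pool.Agent.EFX3

variable {γ : Type} [ToD γ]

theorem pt_cnt_pr {B x : γ → ℕ} (hB : PTime B) (hx : PTime x) :
    PTime (fun c => cnt (B c) (x c)) := by
  have hs : PTime (fun p : γ × (ℕ × List Unit) × Bool =>
      if decide (B p.1 ≤ p.2.1.1) = true then (p.2.1.1.div2, () :: p.2.1.2) else p.2.1) :=
    PTime.ite (PTime.nat_le (hB.comp PTime.id.fst) PTime.id.snd.fst.fst)
      (PTime.pair (PTime.div2 PTime.id.snd.fst.fst)
        (PTime.cons (PTime.const ()) PTime.id.snd.fst.snd)) PTime.id.snd.fst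
  have h := PTime.foldl_add (l := fun c => (x c).bits) (i := fun c => (x c, ([] : List Unit)))
    (s := fun c (s : ℕ × List Unit) (_ : Bool) =>
      if decide (B c ≤ s.1) = true then (s.1.div2, () :: s.2) else s)
    hx.bits (hx.pair (PTime.const [])) hs (Polynomial.C 2) (by
      intro c s a _
      rw [Polynomial.eval_C]
      split_ifs with h1
      · have h2 := num_sz_div2 s.1
        have h3 : sz (s.1.div2, () :: s.2) = sz s.1.div2 + (1 + sz s.2 + 1) + 1 := rfl
        have h4 : sz s = sz s.1 + sz s.2 + 1 := rfl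
        rw [h3, h4]
        omega
      · omega)
  exact h.snd

theorem pe_app (f : Fin 3 → ℕ) (i : Fin 3) : sz (f i) ≤ sz f := by
  have h : sz f = sz (f 0) + (sz (f 1) + sz (f 2) + 1) + 1 := rfl
  fin_cases i <;> simp only [Fin.mk_zero, Fin.mk_one, Fin.reduceFinMk] <;> omega

theorem pe_fold (i : Fin 3) : ∀ (l : List Good) (b : ℕ),
    l.foldl (fun m g => if decide (m ≤ g.2 i) = true then g.2 i else m) b = b ∨
      ∃ g ∈ l, l.foldl (fun m g => if decide (m ≤ g.2 i) = true then g.2 i else m) b = g.2 i := by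
  intro l
  induction l with
  | nil => intro b; exact Or.inl rfl
  | cons a t ih =>
    intro b
    rw [List.foldl_cons]
    rcases ih (if decide (b ≤ a.2 i) = true then a.2 i else b) with h | ⟨g, hg, h⟩
    · rw [h]
      split_ifs with h1
      · exact Or.inr ⟨a, List.mem_cons_self, rfl⟩
      · exact Or.inl rfl
    · exact Or.inr ⟨g, List.mem_cons_of_mem _ hg, h⟩

theorem pt_maxv_pr (i : Fin 3) {L : γ → List Good} (hL : PTime L) :
    PTime (fun c => maxv i (L c)) := by
  obtain ⟨P, hP⟩ := hL.size_le
  have hg : PTime (fun p : γ × ℕ × Good => p.2.2.2 i) :=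
    PTime.app PTime.id.snd.snd.snd (PTime.const i)
  have hs : PTime (fun p : γ × ℕ × Good =>
      if decide (p.2.1 ≤ p.2.2.2 i) = true then p.2.2.2 i else p.2.1) :=
    PTime.ite (PTime.nat_le PTime.id.snd.fst hg) hg PTime.id.snd.fst
  exact PTime.foldl (l := L) (i := fun _ => (0 : ℕ))
    (s := fun _ (m : ℕ) (g : Good) => if decide (m ≤ g.2 i) = true then g.2 i else m)
    hL (PTime.const 0) hs (P + Polynomial.C 1) (by
      intro c l' hl'
      rw [Polynomial.eval_add, Polynomial.eval_C]
      have h0 : sz (0 : ℕ) = 1 := by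
        have := num_sz_le 0
        have h1 := num_le_sz 0
        simp at this h1
        omega
      rcases pe_fold i l' 0 with h | ⟨g, hg, h⟩
      · rw [h, h0]
        omega
      · rw [h]
        have h1 := pe_app g.2 i
        have h2 : sz g = sz g.1 + sz g.2 + 1 := rfl
        have h3 := sz_le_of_mem (hl'.subset hg)
        have h4 := hP c
        omega)

theorem pe_B16 : ∀ (l : List Good) (b : ℕ),
    l.foldl (fun n (_ : Good) => n + 16) b = b + 16 * l.length := by
  intro l
  induction l with
  | nil => intro b; simp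
  | cons a t ih =>
    intro b
    rw [List.foldl_cons, ih, List.length_cons]
    ring

theorem pt_B16_pr {L : γ → List Good} (hL : PTime L) : PTime (fun c => B16 (L c)) := by
  obtain ⟨P, hP⟩ := hL.size_le
  exact PTime.foldl (l := L) (i := fun _ => (0 : ℕ))
    (s := fun _ (n : ℕ) (_ : Good) => n + 16)
    hL (PTime.const 0) (PTime.nat_add PTime.id.snd.fst (PTime.const 16))
    (Polynomial.C 64 * P + Polynomial.C 1) (by
      intro c l' hl'
      rw [Polynomial.eval_add, Polynomial.eval_mul, Polynomial.eval_C, Polynomial.eval_C,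
        pe_B16, zero_add]
      have h1 := num_sz_le (16 * l'.length)
      have h2 : (16 * l'.length).size ≤ 16 * l'.length := Nat.size_le.2 Nat.lt_two_pow_self
      have h3 : l'.length ≤ P.eval (sz c) :=
        (hl'.length_le.trans (length_le_sz _)).trans (hP c)
      omega)

theorem pt_KK_pr {L : γ → List Good} (hL : PTime L) : PTime (fun c => KK (L c)) :=
  PTime.lam fun i => pt_cnt_pr (pt_B16_pr hL) (pt_maxv_pr i hL)

end Pool.Agent.EFD
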